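import Pool.Agent.N924.CG.Main
import Pool.Agent.N924.CG.Sub
import Pool.Agent.N924.LP.Box
import Pool.Agent.N924.LP.One

/-!
# The `p`-adic part of the expected answer for almost all polynomials

For integers `z_0, …, z_{n-1}` let `f = X ^ n + z_{n-1} X ^ (n-1) + … + z_0`. Let `P_1, …, P_r ∈ ℤ[X]` be
fixed polynomials which are multiplicatively independent modulo constants (for example different
monic irreducible polynomials). For a number field `K = ℚ(θ)` of degree `n` with `f(θ) = 0` consider

* `A = R_{K/ℚ}(G_m)`, of dimension `n`, and the group generated by `P_1(θ), …, P_r(θ)`, if `r ≤ n`;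
* the torus of the elements of norm one of `A`, of dimension `n - 1` (it is simple over `ℚ` if the Galois
  group of `f` is doubly transitive), and the group generated by `P_k(θ) ^ n / N(P_k(θ))`, if `r < n`;
  more generally the group generated by `q_k P_k(θ) ^ m`, for any rational numbers `q_k ≠ 0` and any
  `m ≥ 1`.

`Expected p z P`: for all such `K` the generators `x_1, …, x_r` are multiplicatively independent, and for
EVERY subgroup `L` of the group which they generate the closure of `L` in `A(ℚ_p) = (ℚ_p ⊗ K)ˣ` has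
the `ℤ_p`-rank `rank L`: if `y_1, …, y_s ∈ L` are multiplicatively independent and the elements
`∏ y_i ^ (a_k(i))`, for integral vectors `a_k`, converge to `1` in `A(ℚ_p)`, then all coordinates of the `a_k`
converge to `0` in `ℤ_p`.

**Theorem.** Let `p` be a prime, `n` any integer and `P_1, …, P_r` as above.
(1) For all but `o(N ^ n)` of the polynomials `f` with coefficients `|z_i| ≤ N` for which the `P_k(θ)` are
prime to `p` (a condition on `f` modulo `p`): `Expected p z P`.
(2) Let `z_0(t), z_1(t), z_2(t), …` be an infinite sequence of functions of a positive integer `t` with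
integral values, any finite number of which is jointly uniformly distributed modulo all positive
integers `q`, for `t` in given sets `S N ⊆ (N, 2 N]` (`UD`). There is ONE set `E` of density zero (relative
to the sets `S N`, and also relative to a second system of sets) such that for ALL primes `p`, ALL
degrees `n`, ALL `P_1, …, P_r` and ALL choices of `n` different functions `z_l` for the coefficients: for
all but finitely many `t` outside `E` for which the `P_k(θ)` are prime to `p`: `Expected`.
(3) Examples are `z_l(t) = ⌊Q_l(t)⌋` with generalised polynomials `Q_l(t) = ∑ a_x t ^ x` with distinct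
leading exponents which are positive and not integers and have positive coefficients, along all
integers `t` and along the primes.

The starting results of this problem consider a fixed field and groups generated by monomials with
random exponents. Here the field varies over almost all fields (given by their polynomials), and the
groups are explicit.

Proof. On a class of coefficients modulo `p²` the logarithms of `P_k(θ) ^ M` are power series in `n`
variables over `ℤ_p` with coefficients in `ℤ_p[θ]`. Their linear independence (with `1`, if `r < n`) over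
the power series: over a splitting field there are derivations `∂ / ∂ θ_j` with respect to the roots, so
that the logarithms are functions of independent variables, and a determinant of values of functions
whose derivatives `P_k' / P_k` are linearly independent over the constants does not vanish. So the
exceptional coefficients are in the zero set of a power series `h ≠ 0` in `n` variables; this closed set
has Haar measure zero, hence it is contained in `o(p ^ (k n))` classes modulo `p ^ k`. Convergence in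
`(ℚ_p ⊗ K)ˣ` is translated to congruences in `ℤ_p[θ]`. A diagonal argument gives one set `E`.
-/

set_option autoImplicit false

namespace Pool.Agent.Results.MP_7de521_nt.AlmostAllPolynomials

open Polynomial Filter Topology
open Pool.Agent.H440R3 (Kp QpPoints incl)

/-- The polynomial `X ^ n + z_{n-1} X ^ (n-1) + … + z_0`. -/
noncomputable def poly {n : ℕ} (z : Fin n → ℤ) : ℤ[X] := X ^ n + ∑ i, C (z i) * X ^ (i : ℕ)

/-- The polynomials `P_k` are multiplicatively independent modulo constants. -/
def IndependentModConstants {r : ℕ} (P : Fin r → ℤ[X]) : Prop :=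
  ∀ (a b : Fin r → ℕ) (c d : ℤ), c ≠ 0 → d ≠ 0 →
    C c * ∏ k, P k ^ a k = C d * ∏ k, P k ^ b k → a = b

/-- The value of `P` at the root of the polynomial is prime to `p`: modulo `p` the polynomials are
coprime. -/
def PrimeTo (p : ℕ) {n : ℕ} (z : Fin n → ℤ) (P : ℤ[X]) : Prop :=
  IsCoprime ((poly z).map (Int.castRingHom (ZMod p))) (P.map (Int.castRingHom (ZMod p)))

/-- The `y_i` are multiplicatively independent. -/
def IndependentOverZ {K : Type} [Field K] {s : ℕ} (y : Fin s → Kˣ) : Prop :=
  ∀ e : Fin s → ℤ, ∏ i, y i ^ e i = 1 → e = 0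

/-- The `y_i` are independent over `ℤ_p` in `A(ℚ_p) = (ℚ_p ⊗ K)ˣ`: if `∏ y_i ^ (a_k(i))` converges
to `1` then the `a_k(i)` converge to `0` in `ℤ_p`. -/
def IndependentOverZp (p : ℕ) [Fact p.Prime] (K : Type) [Field K] [NumberField K] {s : ℕ}
    (y : Fin s → Kˣ) : Prop :=
  ∀ a : ℕ → Fin s → ℤ,
    Tendsto (fun k => incl p K (∏ i, y i ^ a k i)) atTop (𝓝 (1 : QpPoints p K)) →
      ∀ i, Tendsto (fun k => ((a k i : ℤ) : ℤ_[p])) atTop (𝓝 0)

/-- The `x_k` are multiplicatively independent, and multiplicatively independent elements of the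
group which they generate are independent over `ℤ_p`. -/
def MaximalClosures (p : ℕ) [Fact p.Prime] (K : Type) [Field K] [NumberField K] {r : ℕ}
    (x : Fin r → Kˣ) : Prop :=
  IndependentOverZ x ∧ ∀ (s : ℕ) (y : Fin s → Kˣ),
    (∀ i, y i ∈ Subgroup.closure (Set.range x)) → IndependentOverZ y → IndependentOverZp p K y

/-- The expected answer for the groups generated by the `P_k(θ)`, if `r ≤ n`, and by the
`q_k P_k(θ) ^ m`, if `r < n`, for all fields `K = ℚ(θ)` of degree `n` where `θ` is a root of the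
polynomial. -/
def Expected (p : ℕ) [Fact p.Prime] {n : ℕ} (z : Fin n → ℤ) {r : ℕ} (P : Fin r → ℤ[X]) : Prop :=
  ∀ (K : Type) [Field K] [NumberField K] (θ : K), aeval θ (poly z) = 0 →
    Module.finrank ℚ K = n → IntermediateField.adjoin ℚ {θ} = ⊤ →
    (r ≤ n → ∀ x : Fin r → Kˣ, (∀ k, (x k : K) = aeval θ (P k)) → MaximalClosures p K x) ∧
    (r < n → ∀ (m : ℕ) (q : Fin r → ℚ), 0 < m → (∀ k, q k ≠ 0) → ∀ x : Fin r → Kˣ,
      (∀ k, (x k : K) = algebraMap ℚ K (q k) * aeval θ (P k) ^ m) → MaximalClosures p K x)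

/-- The box `|z_i| ≤ N`. -/
def Box (n N : ℕ) : Set (Fin n → ℤ) := {z | ∀ i, |z i| ≤ N}

/-- The sets `S N ⊆ (N, 2 N]` along which densities are considered. -/
def Scheme (S : ℕ → Finset ℕ) : Prop := ∀ N, S N ⊆ Finset.Ioc N (2 * N)

/-- `E` has density zero relative to the sets `S N`. -/
def NullIn (S : ℕ → Finset ℕ) (E : Set ℕ) : Prop :=
  ∀ ε : ℝ, 0 < ε → ∃ N₀ : ℕ, ∀ N : ℕ, N₀ ≤ N →
    ({t : ℕ | t ∈ S N ∧ t ∈ E}.ncard : ℝ) ≤ ε * (S N).card

/-- Any finite number of the functions `z l` is jointly uniformly distributed modulo all `q`, for `t`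
in the sets `S N`, `N → ∞`. -/
def UD (S : ℕ → Finset ℕ) (z : ℕ → ℕ → ℤ) : Prop :=
  ∀ (r : ℕ) (σ : Fin r → ℕ), Function.Injective σ → ∀ q : ℕ, 1 ≤ q → ∀ ρ : Fin r → ℤ,
    Filter.Tendsto
      (fun N => ({t : ℕ | t ∈ S N ∧ ∀ i, (q : ℤ) ∣ z (σ i) t - ρ i}.ncard : ℝ) / (S N).card)
      Filter.atTop (nhds (1 / (q : ℝ) ^ r))

/-- `c` is the largest exponent of the generalised polynomial `∑ a_x t ^ x`; it is positive and not an
integer and has a positive coefficient. -/
def Admissible (F : Finset ℝ) (a : ℝ → ℝ) (c : ℝ) : Prop :=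
  c ∈ F ∧ (∀ x ∈ F, x ≤ c) ∧ 0 < c ∧ (∀ m : ℕ, c ≠ m) ∧ 0 < a c

/-- The integer part of the value at `t` of the generalised polynomial. -/
noncomputable def value (F : ℕ → Finset ℝ) (a : ℕ → ℝ → ℝ) (l t : ℕ) : ℤ :=
  ⌊∑ x ∈ F l, a l x * (t : ℝ) ^ x⌋

theorem expected_of (p : ℕ) [Fact p.Prime] {n : ℕ} (z : Fin n → ℤ) {r : ℕ} (P : Fin r → ℤ[X])
    (h : Pool.Agent.N924.CG.Full p z P) : Expected p z P := by
  intro K _ _ θ hθ hdeg hgen
  obtain ⟨h1, h2⟩ := h K θ hθ hdeg hgen
  refine ⟨fun hr x hx => ?_, fun hr m q hm hq x hx => ?_⟩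
  · have h3 := h1 hr x hx
    exact ⟨Pool.Agent.N924.CG.ind_of h3, fun s y hy hi => Pool.Agent.N924.CG.sub_ind h3 y hy hi⟩
  · have h3 := h2 hr m q hm hq x hx
    exact ⟨Pool.Agent.N924.CG.ind_of h3, fun s y hy hi => Pool.Agent.N924.CG.sub_ind h3 y hy hi⟩

theorem countable_poly : Countable ℤ[X] :=
  Cardinal.mk_le_aleph0_iff.1 (Polynomial.cardinalMk_le_max.trans (by simp))

/-- **The `p`-adic part of the expected answer for almost all polynomials.**
(1) in boxes; (2) one null set for all primes, all degrees, all `P` and all choices among the functions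
`z l`; (3) the integer parts of generalised polynomials are examples, along the integers and along the
primes. -/
theorem result :
    (∀ (p : ℕ) [Fact p.Prime] (n r : ℕ) (P : Fin r → ℤ[X]), IndependentModConstants P →
      ∀ ε : ℝ, 0 < ε → ∃ N₀ : ℕ, ∀ N : ℕ, N₀ ≤ N →
        ({z | z ∈ Box n N ∧ (∀ k, PrimeTo p z (P k)) ∧ ¬ Expected p z P}.ncard : ℝ) ≤
          ε * (Box n N).ncard) ∧
    (∀ S₁ S₂ : ℕ → Finset ℕ, Scheme S₁ → Scheme S₂ → ∀ z : ℕ → ℕ → ℤ, UD S₁ z → UD S₂ z →
      ∃ E : Set ℕ, NullIn S₁ E ∧ NullIn S₂ E ∧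
        ∀ (p : ℕ) [Fact p.Prime] (n r : ℕ) (P : Fin r → ℤ[X]), IndependentModConstants P →
          ∀ σ : Fin n → ℕ, Function.Injective σ →
            {t : ℕ | t ∉ E ∧ (∀ k, PrimeTo p (fun i => z (σ i) t) (P k)) ∧
              ¬ Expected p (fun i => z (σ i) t) P}.Finite) ∧
    ∀ (F : ℕ → Finset ℝ) (a : ℕ → ℝ → ℝ) (c : ℕ → ℝ), (∀ l, Admissible (F l) (a l) (c l)) →
      Function.Injective c → UD (fun N => Finset.Ioc N (2 * N)) (value F a) ∧
        UD (fun N => (Finset.Ioc N (2 * N)).filter Nat.Prime) (value F a) := by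
  classical
  refine ⟨?_, ?_, fun F a c h hc => Pool.Agent.N924.TH.ud_fl h hc⟩
  · intro p _ n r P hP ε hε
    have hbox : ∀ N, Box n N =
        ↑(Fintype.piFinset fun _ : Fin n => Finset.Ioc (-(N : ℤ) - 1) (N : ℤ)) := by
      intro N
      ext z
      rw [Finset.mem_coe, Fintype.mem_piFinset]
      simp only [Box, Set.mem_ofPred_eq, Finset.mem_Ioc]
      refine forall_congr' fun i => ?_
      rw [abs_le]
      constructor
      · rintro ⟨h1, h2⟩
        constructor <;> linarith
      · rintro ⟨h1, h2⟩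
        constructor <;> linarith
    have hlim : ∀ _ : Fin n, Filter.Tendsto
        (fun N : ℕ => (((N : ℤ) : ℝ) - ((-(N : ℤ) - 1 : ℤ) : ℝ))) Filter.atTop Filter.atTop := by
      intro _
      refine Filter.tendsto_atTop_mono (f := fun N : ℕ => (N : ℝ)) (fun N => ?_)
        tendsto_natCast_atTop_atTop
      have h0 : (0 : ℝ) ≤ N := by positivity
      push_cast
      linarith
    have hmain := Pool.Agent.N924.CG.main _ p _
      (Pool.Agent.N924.LP.eqd_box (κ := Fin n) (fun _ N => -(N : ℤ) - 1) (fun _ N => (N : ℤ)) hlim)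
      P hP
    obtain ⟨N₀, hN₀⟩ := hmain ε hε
    refine ⟨N₀, fun N hN => ?_⟩
    have h1 := hN₀ N hN
    rw [hbox N, Set.ncard_coe_finset]
    refine le_trans ?_ h1
    have h2 : {z | z ∈ (↑(Fintype.piFinset fun _ : Fin n => Finset.Ioc (-(N : ℤ) - 1) (N : ℤ)) :
        Set (Fin n → ℤ)) ∧ (∀ k, PrimeTo p z (P k)) ∧ ¬ Expected p z P} ⊆
        {t : Fin n → ℤ | t ∈ (Fintype.piFinset fun _ : Fin n => Finset.Ioc (-(N : ℤ) - 1) (N : ℤ)) ∧
        t ∈ {t | (∀ k, Pool.Agent.N924.CG.Cop p t (P k)) ∧ ¬ Pool.Agent.N924.CG.Full p t P}} := by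
      rintro z ⟨h3, h4, h5⟩
      exact ⟨h3, h4, fun h => h5 (expected_of p z P h)⟩
    exact_mod_cast Set.ncard_le_ncard h2 (Pool.Agent.N924.LP.fin_part
      (fun N : ℕ => Fintype.piFinset fun _ : Fin n => Finset.Ioc (-(N : ℤ) - 1) (N : ℤ)) N _)
  · intro S₁ S₂ hS₁ hS₂ z hz₁ hz₂
    have _ := countable_poly
    let D : Type := Σ d : {p : ℕ // p.Prime} × ℕ × ℕ, (Fin d.2.1 → ℕ) × (Fin d.2.2 → ℤ[X])
    let Q : D → Prop := fun d => Function.Injective d.2.1 ∧ IndependentModConstants d.2.2
    let B : D → Set ℕ := fun d =>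
      haveI : Fact (d.1.1 : ℕ).Prime := ⟨d.1.1.2⟩
      if Q d then {t : ℕ | (∀ k, Pool.Agent.N924.CG.Cop (d.1.1 : ℕ) (fun i => z (d.2.1 i) t)
        (d.2.2 k)) ∧ ¬ Pool.Agent.N924.CG.Full (d.1.1 : ℕ) (fun i => z (d.2.1 i) t) d.2.2} else ∅
    have hB : ∀ S : ℕ → Finset ℕ, UD S z → ∀ d, Pool.Agent.N924.LP.Nul S (B d) := by
      intro S hz d
      haveI : Fact (d.1.1 : ℕ).Prime := ⟨d.1.1.2⟩
      by_cases hd : Q d
      · have h1 := Pool.Agent.N924.CG.main S (d.1.1 : ℕ) _
          (Pool.Agent.N924.LP.ud_eqd hz d.2.1 hd.1) d.2.2 hd.2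
        refine h1.mono ?_
        intro t ht
        simp only [B, if_pos hd] at ht
        exact ht
      · intro ε hε
        refine ⟨0, fun N _ => ?_⟩
        have e1 : {t : ℕ | t ∈ S N ∧ t ∈ B d} = ∅ := by
          ext t
          simp [B, if_neg hd]
        rw [e1, Set.ncard_empty]
        push_cast
        positivity
    obtain ⟨E, h1, h2, h3⟩ := Pool.Agent.N924.LP.one_set B hS₁ hS₂ (hB S₁ hz₁) (hB S₂ hz₂)
    refine ⟨E, h1, h2, ?_⟩
    intro p hp n r P hP σ hσ
    refine (h3 ⟨(⟨p, hp.out⟩, n, r), (σ, P)⟩).subset ?_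
    rintro t ⟨ht, hcop, hbad⟩
    refine ⟨ht, ?_⟩
    have hQ : Q ⟨(⟨p, hp.out⟩, n, r), (σ, P)⟩ := ⟨hσ, hP⟩
    simp only [B, if_pos hQ]
    exact ⟨hcop, fun h => hbad (expected_of p _ P h)⟩

end Pool.Agent.Results.MP_7de521_nt.AlmostAllPolynomials
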