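import Pool.Agent.N680.IR.Cur
import Pool.Agent.Results.MP_7de521_nt.AlmostAllSubgroups
import Pool.Agent.Results.MP_7de521_nt.NormOneTori

/-!
# The real part of the expected answer for products with independent random exponents of arbitrary distributions

Let `K` be a number field of degree `n` with `r` infinite places and `A = R_{K/ℚ}(G_m)`, or the norm one torus (simple over
`ℚ` if the Galois group is doubly transitive on the embeddings). Let `γ_1, …, γ_N ∈ A(ℚ)` be such that their conjugates are
multiplicatively independent, up to the norm in the second case (which is automatic for multiplicatively independent `γ_x` if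
the Galois group is doubly transitive). We consider the random groups generated by the `l` elements

  `δ_i = ∏_x γ_x ^ (X_{i x})`, `1 ≤ i ≤ l`,

where the `X_{i x}` are independent random integers, with ARBITRARY, also different, distributions which do not take any
value with a probability larger than `δ`. With probability at least `1 - C δ ^ (N - c)`, where `c` depends only on `n` and `l`,
EVERY subgroup `L` of this group has the expected closure in `A(ℝ)`: the identity component of the closure is trivial, if the
rank of `L` is at most `r` (smaller than `r` for the norm one torus), and the identity component of `A(ℝ)` otherwise.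

The same is true for matrices of values of arithmetic functions: if `F_{i x}` are arbitrary functions which take no value more
than `δ M` times on `[1, M]`, this holds for the exponents `F_{i x}(t_{i x})`, for all but `C δ ^ (N - c) M ^ (l N)` matrices `t`
of numbers in `[1, M]`. For instance for the exponents `ω(t)`, the numbers of prime factors, where `δ` is about
`(log log M) ^ (-1/2)`, for almost all `t`, if `N > c`.

The starting theorems concern exponents with the uniform distribution on an arbitrary finite set, the same for all exponents.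

Proof. The probability that the group is bad is an affine function of each of the distributions. So it becomes larger if one of
them after the other is replaced by a uniform distribution on the `⌊1 / δ⌋` values with the largest conditional probability of
a bad group. The union of these sets of values is a finite set `T` to which the starting theorems apply.
-/

set_option autoImplicit false

namespace Pool.Agent.Results.MP_7de521_nt.RandomExponents

open MeasureTheory ProbabilityTheory Module

/-- **Random exponents.** Let `n` be a degree and `l ≥ 1`. There is `c` such that for all `N` there is `C` with the following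
properties for all number fields `K` of degree `n`.

(1) For independent random integers `X_{i x}` (`i < l`, `x < N`) with `P(X_{i x} = v) ≤ δ` for all `i`, `x` and `v`, with
probability at least `1 - C δ ^ (N - c)` all subgroups of the group generated by the `∏_x γ_x ^ (X_{i x})` have the expected
closures, in `R_{K/ℚ}(G_m)` if the conjugates of the `γ_x` are multiplicatively independent, and in the norm one torus if the
`γ_x` are admissible.

(2) For arbitrary functions `F_{i x}` which take no value more than `δ M` times on `[1, M]`, this is true for the groups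
generated by the `∏_x γ_x ^ (F_{i x}(t_{i x}))`, for all but `C δ ^ (N - c) M ^ (l N)` of the `t ∈ [1, M] ^ (l N)`. -/
theorem result (n l : ℕ) (hl : 1 ≤ l) : ∃ c : ℕ, ∀ N : ℕ, ∃ C : ℝ, ∀ (K : Type) [Field K] [NumberField K],
    finrank ℚ K = n →
    (∀ (Ω : Type) [MeasurableSpace Ω] (P : Measure Ω) [IsProbabilityMeasure P] (X : Fin l × Fin N → Ω → ℤ),
      (∀ j, Measurable (X j)) → iIndepFun X P → ∀ δ : ℝ, 0 < δ → (∀ j v, P {ω | X j ω = v} ≤ ENNReal.ofReal δ) →
      (∀ γ : Fin N → Kˣ, AlmostAllSubgroups.IndependentConjugates K γ →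
        P {ω | ¬ AlmostAllSubgroups.ExpectedForSubgroups K γ fun i x => X (i, x) ω} ≤
          ENNReal.ofReal (C * δ ^ (N - c))) ∧
      (2 ≤ n → ∀ γ : Fin N → Kˣ, NormOneTori.Admissible K γ →
        P {ω | ¬ NormOneTori.ExpectedReal K γ fun i x => X (i, x) ω} ≤ ENNReal.ofReal (C * δ ^ (N - c)))) ∧
    (∀ (δ : ℝ) (M : ℕ) (F : Fin l → Fin N → ℕ → ℤ), 0 < δ → 1 ≤ M →
      (∀ i x v, (({t : ℕ | 1 ≤ t ∧ t ≤ M ∧ F i x t = v}.ncard : ℕ) : ℝ) ≤ δ * M) →
      (∀ γ : Fin N → Kˣ, AlmostAllSubgroups.IndependentConjugates K γ →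
        (({t : Fin l → Fin N → ℕ | (∀ i x, 1 ≤ t i x ∧ t i x ≤ M) ∧
          ¬ AlmostAllSubgroups.ExpectedForSubgroups K γ fun i x => F i x (t i x)}.ncard : ℕ) : ℝ) ≤
          C * δ ^ (N - c) * (M : ℝ) ^ (l * N)) ∧
      (2 ≤ n → ∀ γ : Fin N → Kˣ, NormOneTori.Admissible K γ →
        (({t : Fin l → Fin N → ℕ | (∀ i x, 1 ≤ t i x ∧ t i x ≤ M) ∧
          ¬ NormOneTori.ExpectedReal K γ fun i x => F i x (t i x)}.ncard : ℕ) : ℝ) ≤
          C * δ ^ (N - c) * (M : ℝ) ^ (l * N))) := by
  classical
  obtain ⟨c₁, h₁⟩ := AlmostAllSubgroups.result n l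
  obtain ⟨c₂, h₂⟩ : ∃ c₂ : ℕ, 2 ≤ n → ∀ N : ℕ, ∃ C : ℕ, ∀ (K : Type) [Field K] [NumberField K], finrank ℚ K = n →
      ∀ γ : Fin N → Kˣ, NormOneTori.Admissible K γ → ∀ T : Finset ℤ, T.Nonempty →
        ((Fintype.piFinset fun _ : Fin l => Fintype.piFinset fun _ : Fin N => T).filter fun m =>
          ¬ NormOneTori.ExpectedReal K γ m).card ≤ C * T.card ^ ((l - 1) * N + c₂) := by
    by_cases hn : 2 ≤ n
    · obtain ⟨c, h⟩ := NormOneTori.result n l hn
      refine ⟨c, fun _ N => ?_⟩
      obtain ⟨C, hC⟩ := h N
      exact ⟨C, fun K _ _ hK γ hγ T hT => Pool.Agent.N680.IR.adapt _ _ (hC K hK γ hγ T hT)⟩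
    · exact ⟨0, fun h => absurd h hn⟩
  refine ⟨max c₁ c₂, fun N => ?_⟩
  obtain ⟨C₁, hC₁⟩ := h₁ N
  obtain ⟨C₂, hC₂⟩ : ∃ C₂ : ℕ, 2 ≤ n → ∀ (K : Type) [Field K] [NumberField K], finrank ℚ K = n →
      ∀ γ : Fin N → Kˣ, NormOneTori.Admissible K γ → ∀ T : Finset ℤ, T.Nonempty →
        ((Fintype.piFinset fun _ : Fin l => Fintype.piFinset fun _ : Fin N => T).filter fun m =>
          ¬ NormOneTori.ExpectedReal K γ m).card ≤ C₂ * T.card ^ ((l - 1) * N + c₂) := by
    by_cases hn : 2 ≤ n
    · obtain ⟨C, h⟩ := h₂ hn N
      exact ⟨C, fun _ => h⟩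
    · exact ⟨0, fun h => absurd h hn⟩
  have up : ∀ (c : ℕ), c ≤ max c₁ c₂ → ∀ (C : ℕ), C ≤ max C₁ C₂ → ∀ E : (Fin l → Fin N → ℤ) → Prop,
      (∀ T : Finset ℤ, T.Nonempty →
        ((Fintype.piFinset fun _ : Fin l => Fintype.piFinset fun _ : Fin N => T).filter fun m =>
          ¬ E m).card ≤ C * T.card ^ ((l - 1) * N + c)) →
      ∀ T : Finset ℤ, T.Nonempty →
        ((Fintype.piFinset fun _ : Fin l => Fintype.piFinset fun _ : Fin N => T).filter fun m =>
          ¬ E m).card ≤ max C₁ C₂ * T.card ^ ((l - 1) * N + max c₁ c₂) := by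
    intro c hc C hC E h T hT
    refine (h T hT).trans (Nat.mul_le_mul hC (Nat.pow_le_pow_right (Finset.card_pos.2 hT) (by omega)))
  refine ⟨Pool.Agent.N680.IR.cst l N (max c₁ c₂) (max C₁ C₂), fun K _ _ hK => ⟨?_, ?_⟩⟩
  · intro Ω _ P _ X hX hind δ hδ hP
    refine ⟨fun γ hγ => ?_, fun hn γ hγ => ?_⟩
    · exact Pool.Agent.N680.IR.matrices hl (fun m => AlmostAllSubgroups.ExpectedForSubgroups K γ m)
        (up c₁ (le_max_left _ _) C₁ (le_max_left _ _) _ (fun T hT => Pool.Agent.N680.IR.adapt _ _ (hC₁ K hK γ hγ T hT)))
        Ω P X hX hind δ hδ hP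
    · exact Pool.Agent.N680.IR.matrices hl (fun m => NormOneTori.ExpectedReal K γ m)
        (up c₂ (le_max_right _ _) C₂ (le_max_right _ _) _ (hC₂ hn K hK γ hγ))
        Ω P X hX hind δ hδ hP
  · intro δ M F hδ hM hF
    refine ⟨fun γ hγ => ?_, fun hn γ hγ => ?_⟩
    · exact Pool.Agent.N680.IR.arith_matrices hl (fun m => AlmostAllSubgroups.ExpectedForSubgroups K γ m)
        (up c₁ (le_max_left _ _) C₁ (le_max_left _ _) _ (fun T hT => Pool.Agent.N680.IR.adapt _ _ (hC₁ K hK γ hγ T hT)))
        δ hδ M hM F hF
    · exact Pool.Agent.N680.IR.arith_matrices hl (fun m => NormOneTori.ExpectedReal K γ m)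
        (up c₂ (le_max_right _ _) C₂ (le_max_right _ _) _ (hC₂ hn K hK γ hγ))
        δ hδ M hM F hF

end Pool.Agent.Results.MP_7de521_nt.RandomExponents
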