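import Pool.Agent.N680.IR.Cur
import Pool.Agent.Results.MP_7de521_nt.PadicAlmostAllSubgroups
import Pool.Agent.Results.MP_7de521_nt.NormOneToriPadic

/-!
# The p-adic part of the expected answer for products with independent random exponents of arbitrary distributions

Let `p` be a prime number, `K` a number field of degree `n` and `A = R_{K/ℚ}(G_m)`, or the norm one torus (simple over `ℚ` if
the Galois group is doubly transitive on the embeddings). Let `γ_1, …, γ_N ∈ A(ℚ)` be such that their conjugates, and the
number `p`, are multiplicatively independent, or, in the second case, that the conjugates satisfy no relations besides those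
given by the norm (which is automatic for multiplicatively independent `γ_x` if the Galois group is doubly transitive). We
consider the random groups generated by the `l` elements

  `δ_i = ∏_x γ_x ^ (X_{i x})`, `1 ≤ i ≤ l`,

where the `X_{i x}` are independent random integers, with ARBITRARY, also different, distributions which do not take any
value with a probability larger than `δ`. With probability at least `1 - C δ ^ (N - c)`, where `c` depends only on `n` and `l`,
any `s ≤ dim A` multiplicatively independent elements of this group are independent over `ℤ_p` in `A(ℚ_p)`. So the closure of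
every subgroup `L` of this group which lies in a compact subgroup of `A(ℚ_p)` has the `ℤ_p`-rank `min (rank L, dim A)`.

The same is true for matrices of values of arithmetic functions: if `F_{i x}` are arbitrary functions which take no value more
than `δ M` times on `[1, M]`, this holds for the exponents `F_{i x}(t_{i x})`, for all but `C δ ^ (N - c) M ^ (l N)` matrices `t`
of numbers in `[1, M]`.

The starting theorems concern exponents with the uniform distribution on an arbitrary finite set, the same for all exponents.

Proof. The probability that the group is bad is an affine function of each of the distributions. So it becomes larger if one of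
them after the other is replaced by a uniform distribution on the `⌊1 / δ⌋` values with the largest conditional probability of
a bad group. The union of these sets of values is a finite set `T` to which the starting theorems apply.
-/

set_option autoImplicit false

namespace Pool.Agent.Results.MP_7de521_nt.RandomExponentsPadic

open MeasureTheory ProbabilityTheory Module

/-- **Random exponents, p-adically.** Let `n` be a degree and `l ≥ 1`. There is `c` such that for all primes `p` and all `N`
there is `C` with the following properties for all number fields `K` of degree `n`.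

(1) For independent random integers `X_{i x}` (`i < l`, `x < N`) with `P(X_{i x} = v) ≤ δ` for all `i`, `x` and `v`, with
probability at least `1 - C δ ^ (N - c)` any `s ≤ dim A` multiplicatively independent elements of the group generated by the
`∏_x γ_x ^ (X_{i x})` are independent over `ℤ_p` in `A(ℚ_p)`, where `A = R_{K/ℚ}(G_m)`, if `p` and the conjugates of the `γ_x`
are multiplicatively independent, and where `A` is the norm one torus, if the `γ_x` are admissible.

(2) For arbitrary functions `F_{i x}` which take no value more than `δ M` times on `[1, M]`, this is true for the groups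
generated by the `∏_x γ_x ^ (F_{i x}(t_{i x}))`, for all but `C δ ^ (N - c) M ^ (l N)` of the `t ∈ [1, M] ^ (l N)`. -/
theorem result (n l : ℕ) (hl : 1 ≤ l) : ∃ c : ℕ, ∀ (p : ℕ) [Fact p.Prime] (N : ℕ), ∃ C : ℝ,
    ∀ (K : Type) [Field K] [NumberField K], finrank ℚ K = n →
    (∀ (Ω : Type) [MeasurableSpace Ω] (P : Measure Ω) [IsProbabilityMeasure P] (X : Fin l × Fin N → Ω → ℤ),
      (∀ j, Measurable (X j)) → iIndepFun X P → ∀ δ : ℝ, 0 < δ → (∀ j v, P {ω | X j ω = v} ≤ ENNReal.ofReal δ) →
      (∀ γ : Fin N → Kˣ, PadicAlmostAllSubgroups.IndependentConjugates p K γ →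
        P {ω | ¬ PadicAlmostAllSubgroups.ExpectedForSubgroups p K γ fun i x => X (i, x) ω} ≤
          ENNReal.ofReal (C * δ ^ (N - c))) ∧
      (∀ γ : Fin N → Kˣ, NormOneToriPadic.Admissible K γ →
        P {ω | ¬ NormOneToriPadic.ExpectedPadic p K γ fun i x => X (i, x) ω} ≤ ENNReal.ofReal (C * δ ^ (N - c)))) ∧
    (∀ (δ : ℝ) (M : ℕ) (F : Fin l → Fin N → ℕ → ℤ), 0 < δ → 1 ≤ M →
      (∀ i x v, (({t : ℕ | 1 ≤ t ∧ t ≤ M ∧ F i x t = v}.ncard : ℕ) : ℝ) ≤ δ * M) →
      (∀ γ : Fin N → Kˣ, PadicAlmostAllSubgroups.IndependentConjugates p K γ →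
        (({t : Fin l → Fin N → ℕ | (∀ i x, 1 ≤ t i x ∧ t i x ≤ M) ∧
          ¬ PadicAlmostAllSubgroups.ExpectedForSubgroups p K γ fun i x => F i x (t i x)}.ncard : ℕ) : ℝ) ≤
          C * δ ^ (N - c) * (M : ℝ) ^ (l * N)) ∧
      (∀ γ : Fin N → Kˣ, NormOneToriPadic.Admissible K γ →
        (({t : Fin l → Fin N → ℕ | (∀ i x, 1 ≤ t i x ∧ t i x ≤ M) ∧
          ¬ NormOneToriPadic.ExpectedPadic p K γ fun i x => F i x (t i x)}.ncard : ℕ) : ℝ) ≤
          C * δ ^ (N - c) * (M : ℝ) ^ (l * N))) := by
  classical
  obtain ⟨c₁, h₁⟩ := PadicAlmostAllSubgroups.result n l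
  obtain ⟨c₂, h₂⟩ := NormOneToriPadic.result n l
  refine ⟨max c₁ c₂, fun p _ N => ?_⟩
  obtain ⟨C₁, hC₁⟩ := h₁ p N
  obtain ⟨C₂, hC₂⟩ := h₂ p N
  have up : ∀ (c : ℕ), c ≤ max c₁ c₂ → ∀ (C : ℕ), C ≤ max C₁ C₂ → ∀ E : (Fin l → Fin N → ℤ) → Prop,
      (∀ T : Finset ℤ, T.Nonempty →
        ((Fintype.piFinset fun _ : Fin l => Fintype.piFinset fun _ : Fin N => T).filter fun m =>
          ¬ E m).card ≤ C * T.card ^ ((l - 1) * N + c)) →
      ∀ T : Finset ℤ, T.Nonempty →
        ((Fintype.piFinset fun _ : Fin l => Fintype.piFinset fun _ : Fin N => T).filter fun m =>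
          ¬ E m).card ≤ max C₁ C₂ * T.card ^ ((l - 1) * N + max c₁ c₂) := by
    intro c hc C hC E h T hT
    refine (h T hT).trans (Nat.mul_le_mul hC (Nat.pow_le_pow_right (Finset.card_pos.2 hT) (by omega)))
  refine ⟨Pool.Agent.N680.IR.cst l N (max c₁ c₂) (max C₁ C₂), fun K _ _ hK => ⟨?_, ?_⟩⟩
  · intro Ω _ P _ X hX hind δ hδ hP
    refine ⟨fun γ hγ => ?_, fun γ hγ => ?_⟩
    · exact Pool.Agent.N680.IR.matrices hl (fun m => PadicAlmostAllSubgroups.ExpectedForSubgroups p K γ m)
        (up c₁ (le_max_left _ _) C₁ (le_max_left _ _) _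
          (fun T hT => Pool.Agent.N680.IR.adapt _ _ (hC₁ K hK γ hγ T hT)))
        Ω P X hX hind δ hδ hP
    · exact Pool.Agent.N680.IR.matrices hl (fun m => NormOneToriPadic.ExpectedPadic p K γ m)
        (up c₂ (le_max_right _ _) C₂ (le_max_right _ _) _
          (fun T hT => Pool.Agent.N680.IR.adapt _ _ (hC₂ K hK γ hγ T hT)))
        Ω P X hX hind δ hδ hP
  · intro δ M F hδ hM hF
    refine ⟨fun γ hγ => ?_, fun γ hγ => ?_⟩
    · exact Pool.Agent.N680.IR.arith_matrices hl (fun m => PadicAlmostAllSubgroups.ExpectedForSubgroups p K γ m)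
        (up c₁ (le_max_left _ _) C₁ (le_max_left _ _) _
          (fun T hT => Pool.Agent.N680.IR.adapt _ _ (hC₁ K hK γ hγ T hT)))
        δ hδ M hM F hF
    · exact Pool.Agent.N680.IR.arith_matrices hl (fun m => NormOneToriPadic.ExpectedPadic p K γ m)
        (up c₂ (le_max_right _ _) C₂ (le_max_right _ _) _
          (fun T hT => Pool.Agent.N680.IR.adapt _ _ (hC₂ K hK γ hγ T hT)))
        δ hδ M hM F hF

end Pool.Agent.Results.MP_7de521_nt.RandomExponentsPadic
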