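import Pool.Agent.N924.CH.Main
import Pool.Agent.N924.CG.Sub
import Pool.Agent.N924.LP.Box
import Pool.Agent.N924.LP.One

/-!
# The `p`-adic part of the expected answer for tori of relative norm one elements

For integers `z_0, …, z_{n-1}` let `g = X ^ n + z_{n-1} X ^ (n-1) + … + z_0`, and let `K = ℚ(θ)` be a number
field of degree `2 n` with `g(θ ²) = 0`, a quadratic extension of `F = ℚ(θ ²)` (a CM field, if all roots
of `g` are negative). The elements of `K` of relative norm one over `F` are the rational points of a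
torus `T` of dimension `n` in `R_{K/ℚ}(G_m)`; it is simple over `ℚ` if the Galois group of `g(X ²)` is the
group of all signed permutations.

Let `P_1, …, P_r ∈ ℤ[X]`, `r ≤ n`, be fixed polynomials such that the rational functions
`P_k(X) / P_k(-X)` are multiplicatively independent modulo constants (for example `P_k = X - k`). We
consider the group generated by the elements `x_k = P_k(θ) / P_k(-θ)` of `T(ℚ)`.

`Expected p z P`: for all such `K` the `x_1, …, x_r` are multiplicatively independent, and for EVERY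
subgroup `L` of the group which they generate the closure of `L` in `T(ℚ_p) ⊆ (ℚ_p ⊗ K)ˣ` has the
`ℤ_p`-rank `rank L`: if `y_1, …, y_s ∈ L` are multiplicatively independent and the elements
`∏ y_i ^ (a_k(i))`, for integral vectors `a_k`, converge to `1` in `(ℚ_p ⊗ K)ˣ`, then all coordinates of
the `a_k` converge to `0` in `ℤ_p`.

**Theorem.** Let `p` be a prime and `r ≤ n` and `P_1, …, P_r` as above.
(1) For all but `o(N ^ n)` of the polynomials `g` with coefficients `|z_i| ≤ N` for which the `P_k(θ)` are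
prime to `p` (a condition on `g` modulo `p`): `Expected p z P`.
(2) Let `z_0(t), z_1(t), z_2(t), …` be an infinite sequence of functions of a positive integer `t` with
integral values, any finite number of which is jointly uniformly distributed modulo all positive
integers `q`, for `t` in given sets `S N ⊆ (N, 2 N]` (`UD`). There is ONE set `E` of density zero (relative
to the sets `S N`, and also relative to a second system of sets) such that for ALL primes `p`, ALL `n`,
ALL `P_1, …, P_r` and ALL choices of `n` different functions `z_l` for the coefficients: for all but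
finitely many `t` outside `E` for which the `P_k(θ)` are prime to `p`: `Expected`.
(3) Examples are `z_l(t) = ⌊Q_l(t)⌋` with generalised polynomials `Q_l(t) = ∑ a_x t ^ x` with distinct
leading exponents which are positive and not integers and have positive coefficients, along all
integers `t` and along the primes.

This is not a consequence of the hand-in `AlmostAllPolynomials`, where the minimal polynomial of `θ`
has `2 n` free coefficients: here it is even, and the elements have relative norm one (in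
`(ℚ_p ⊗ K)ˣ` the logarithms of `P_k(θ)` and `P_k(-θ)` are at conjugate places).

Proof. On a class of coefficients modulo `p²` the logarithms of `P_k(± θ) ^ M` are power series in `n`
variables over `ℤ_p` with coefficients in `ℤ_p[θ]`. Over a splitting field there are derivations
`∂ / ∂ w_j` with respect to the roots `w_j = θ_j ²` of `g`, so that `log (P_k(θ_j) / P_k(-θ_j))` are
functions of independent variables, whose derivatives `P_k'(θ_j) / P_k(θ_j) + P_k'(-θ_j) / P_k(-θ_j)` are
linearly independent over the constants; hence the determinants do not vanish identically. The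
exceptional coefficients are in the zero set of a power series `h ≠ 0` in `n` variables, a closed set of
Haar measure zero, and so in `o(p ^ (k n))` classes modulo `p ^ k`. Convergence in `(ℚ_p ⊗ K)ˣ` is
translated to congruences in `ℤ_p[θ]`. A diagonal argument gives one set `E`.
-/

set_option autoImplicit false

namespace Pool.Agent.Results.MP_7de521_nt.RelativeNormOneTori

open Polynomial Filter Topology
open Pool.Agent.H440R3 (Kp QpPoints incl)

/-- The polynomial `g(X ²)`, where `g = X ^ n + z_{n-1} X ^ (n-1) + … + z_0`. -/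
noncomputable def evenPoly {n : ℕ} (z : Fin n → ℤ) : ℤ[X] :=
  (X ^ n + ∑ i, C (z i) * X ^ (i : ℕ)).comp (X ^ 2)

/-- The rational functions `P_k(X) / P_k(-X)` are multiplicatively independent modulo constants. -/
def IndependentModConstants {r : ℕ} (P : Fin r → ℤ[X]) : Prop :=
  ∀ (a b : Fin r → ℕ) (c d : ℤ), c ≠ 0 → d ≠ 0 →
    C c * ∏ k, (P k ^ a k * (P k).comp (-X) ^ b k) =
      C d * ∏ k, (P k ^ b k * (P k).comp (-X) ^ a k) → a = b

/-- The value of `P` at the root of the polynomial `g(X ²)` is prime to `p`: modulo `p` the polynomials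
are coprime. -/
def PrimeTo (p : ℕ) {n : ℕ} (z : Fin n → ℤ) (P : ℤ[X]) : Prop :=
  IsCoprime ((evenPoly z).map (Int.castRingHom (ZMod p))) (P.map (Int.castRingHom (ZMod p)))

/-- The `y_i` are multiplicatively independent. -/
def IndependentOverZ {K : Type} [Field K] {s : ℕ} (y : Fin s → Kˣ) : Prop :=
  ∀ e : Fin s → ℤ, ∏ i, y i ^ e i = 1 → e = 0

/-- The `y_i` are independent over `ℤ_p` in `A(ℚ_p) = (ℚ_p ⊗ K)ˣ`: if `∏ y_i ^ (a_k(i))` converges
to `1` then the `a_k(i)` converge to `0` in `ℤ_p`. -/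
def IndependentOverZp (p : ℕ) [Fact p.Prime] (K : Type) [Field K] [NumberField K] {s : ℕ}
    (y : Fin s → Kˣ) : Prop :=
  ∀ a : ℕ → Fin s → ℤ,
    Tendsto (fun k => incl p K (∏ i, y i ^ a k i)) atTop (𝓝 (1 : QpPoints p K)) →
      ∀ i, Tendsto (fun k => ((a k i : ℤ) : ℤ_[p])) atTop (𝓝 0)

/-- The `x_k` are multiplicatively independent, and multiplicatively independent elements of the
group which they generate are independent over `ℤ_p`. -/
def MaximalClosures (p : ℕ) [Fact p.Prime] (K : Type) [Field K] [NumberField K] {r : ℕ}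
    (x : Fin r → Kˣ) : Prop :=
  IndependentOverZ x ∧ ∀ (s : ℕ) (y : Fin s → Kˣ),
    (∀ i, y i ∈ Subgroup.closure (Set.range x)) → IndependentOverZ y → IndependentOverZp p K y

/-- The expected answer for the groups generated by the `P_k(θ) / P_k(-θ)`, for all fields `K = ℚ(θ)` of
degree `2 n` where `θ` is a root of the polynomial `g(X ²)`. -/
def Expected (p : ℕ) [Fact p.Prime] {n : ℕ} (z : Fin n → ℤ) {r : ℕ} (P : Fin r → ℤ[X]) : Prop :=
  ∀ (K : Type) [Field K] [NumberField K] (θ : K), aeval θ (evenPoly z) = 0 →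
    Module.finrank ℚ K = n * 2 → IntermediateField.adjoin ℚ {θ} = ⊤ →
    ∀ x : Fin r → Kˣ, (∀ k, (x k : K) = aeval θ (P k) / aeval (-θ) (P k)) →
      MaximalClosures p K x

/-- The box `|z_i| ≤ N`. -/
def Box (n N : ℕ) : Set (Fin n → ℤ) := {z | ∀ i, |z i| ≤ N}

/-- The sets `S N ⊆ (N, 2 N]` along which densities are considered. -/
def Scheme (S : ℕ → Finset ℕ) : Prop := ∀ N, S N ⊆ Finset.Ioc N (2 * N)

/-- `E` has density zero relative to the sets `S N`. -/
def NullIn (S : ℕ → Finset ℕ) (E : Set ℕ) : Prop :=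
  ∀ ε : ℝ, 0 < ε → ∃ N₀ : ℕ, ∀ N : ℕ, N₀ ≤ N →
    ({t : ℕ | t ∈ S N ∧ t ∈ E}.ncard : ℝ) ≤ ε * (S N).card

/-- Any finite number of the functions `z l` is jointly uniformly distributed modulo all `q`, for `t`
in the sets `S N`, `N → ∞`. -/
def UD (S : ℕ → Finset ℕ) (z : ℕ → ℕ → ℤ) : Prop :=
  ∀ (r : ℕ) (σ : Fin r → ℕ), Function.Injective σ → ∀ q : ℕ, 1 ≤ q → ∀ ρ : Fin r → ℤ,
    Filter.Tendsto
      (fun N => ({t : ℕ | t ∈ S N ∧ ∀ i, (q : ℤ) ∣ z (σ i) t - ρ i}.ncard : ℝ) / (S N).card)
      Filter.atTop (nhds (1 / (q : ℝ) ^ r))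

/-- `c` is the largest exponent of the generalised polynomial `∑ a_x t ^ x`; it is positive and not an
integer and has a positive coefficient. -/
def Admissible (F : Finset ℝ) (a : ℝ → ℝ) (c : ℝ) : Prop :=
  c ∈ F ∧ (∀ x ∈ F, x ≤ c) ∧ 0 < c ∧ (∀ m : ℕ, c ≠ m) ∧ 0 < a c

/-- The integer part of the value at `t` of the generalised polynomial. -/
noncomputable def value (F : ℕ → Finset ℝ) (a : ℕ → ℝ → ℝ) (l t : ℕ) : ℤ :=
  ⌊∑ x ∈ F l, a l x * (t : ℝ) ^ x⌋

theorem expected_of (p : ℕ) [Fact p.Prime] {n : ℕ} (z : Fin n → ℤ) {r : ℕ} (P : Fin r → ℤ[X])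
    (h : Pool.Agent.N924.CH.Full p z P) : Expected p z P := by
  intro K _ _ θ hθ hdeg hgen x hx
  have h3 := h K θ hθ hdeg hgen x hx
  exact ⟨Pool.Agent.N924.CG.ind_of h3, fun s y hy hi => Pool.Agent.N924.CG.sub_ind h3 y hy hi⟩

theorem countable_poly : Countable ℤ[X] :=
  Cardinal.mk_le_aleph0_iff.1 (Polynomial.cardinalMk_le_max.trans (by simp))

/-- **The `p`-adic part of the expected answer for tori of relative norm one elements.**
(1) in boxes; (2) one null set for all primes, all `n`, all `P` and all choices among the functions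
`z l`; (3) the integer parts of generalised polynomials are examples, along the integers and along the
primes. -/
theorem result :
    (∀ (p : ℕ) [Fact p.Prime] (n r : ℕ), r ≤ n → ∀ P : Fin r → ℤ[X], IndependentModConstants P →
      ∀ ε : ℝ, 0 < ε → ∃ N₀ : ℕ, ∀ N : ℕ, N₀ ≤ N →
        ({z | z ∈ Box n N ∧ (∀ k, PrimeTo p z (P k)) ∧ ¬ Expected p z P}.ncard : ℝ) ≤
          ε * (Box n N).ncard) ∧
    (∀ S₁ S₂ : ℕ → Finset ℕ, Scheme S₁ → Scheme S₂ → ∀ z : ℕ → ℕ → ℤ, UD S₁ z → UD S₂ z →
      ∃ E : Set ℕ, NullIn S₁ E ∧ NullIn S₂ E ∧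
        ∀ (p : ℕ) [Fact p.Prime] (n r : ℕ), r ≤ n → ∀ P : Fin r → ℤ[X], IndependentModConstants P →
          ∀ σ : Fin n → ℕ, Function.Injective σ →
            {t : ℕ | t ∉ E ∧ (∀ k, PrimeTo p (fun i => z (σ i) t) (P k)) ∧
              ¬ Expected p (fun i => z (σ i) t) P}.Finite) ∧
    ∀ (F : ℕ → Finset ℝ) (a : ℕ → ℝ → ℝ) (c : ℕ → ℝ), (∀ l, Admissible (F l) (a l) (c l)) →
      Function.Injective c → UD (fun N => Finset.Ioc N (2 * N)) (value F a) ∧
        UD (fun N => (Finset.Ioc N (2 * N)).filter Nat.Prime) (value F a) := by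
  classical
  refine ⟨?_, ?_, fun F a c h hc => Pool.Agent.N924.TH.ud_fl h hc⟩
  · intro p _ n r hr P hP ε hε
    have hbox : ∀ N, Box n N =
        ↑(Fintype.piFinset fun _ : Fin n => Finset.Ioc (-(N : ℤ) - 1) (N : ℤ)) := by
      intro N
      ext z
      rw [Finset.mem_coe, Fintype.mem_piFinset]
      simp only [Box, Set.mem_ofPred_eq, Finset.mem_Ioc]
      refine forall_congr' fun i => ?_
      rw [abs_le]
      constructor
      · rintro ⟨h1, h2⟩
        constructor <;> linarith
      · rintro ⟨h1, h2⟩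
        constructor <;> linarith
    have hlim : ∀ _ : Fin n, Filter.Tendsto
        (fun N : ℕ => (((N : ℤ) : ℝ) - ((-(N : ℤ) - 1 : ℤ) : ℝ))) Filter.atTop Filter.atTop := by
      intro _
      refine Filter.tendsto_atTop_mono (f := fun N : ℕ => (N : ℝ)) (fun N => ?_)
        tendsto_natCast_atTop_atTop
      have h0 : (0 : ℝ) ≤ N := by positivity
      push_cast
      linarith
    have hmain := Pool.Agent.N924.CH.main _ p _
      (Pool.Agent.N924.LP.eqd_box (κ := Fin n) (fun _ N => -(N : ℤ) - 1) (fun _ N => (N : ℤ)) hlim)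
      hr P hP
    obtain ⟨N₀, hN₀⟩ := hmain ε hε
    refine ⟨N₀, fun N hN => ?_⟩
    have h1 := hN₀ N hN
    rw [hbox N, Set.ncard_coe_finset]
    refine le_trans ?_ h1
    have h2 : {z | z ∈ (↑(Fintype.piFinset fun _ : Fin n => Finset.Ioc (-(N : ℤ) - 1) (N : ℤ)) :
        Set (Fin n → ℤ)) ∧ (∀ k, PrimeTo p z (P k)) ∧ ¬ Expected p z P} ⊆
        {t : Fin n → ℤ | t ∈ (Fintype.piFinset fun _ : Fin n => Finset.Ioc (-(N : ℤ) - 1) (N : ℤ)) ∧
        t ∈ {t | (∀ k, Pool.Agent.N924.CH.Cop p t (P k)) ∧ ¬ Pool.Agent.N924.CH.Full p t P}} := by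
      rintro z ⟨h3, h4, h5⟩
      exact ⟨h3, h4, fun h => h5 (expected_of p z P h)⟩
    exact_mod_cast Set.ncard_le_ncard h2 (Pool.Agent.N924.LP.fin_part
      (fun N : ℕ => Fintype.piFinset fun _ : Fin n => Finset.Ioc (-(N : ℤ) - 1) (N : ℤ)) N _)
  · intro S₁ S₂ hS₁ hS₂ z hz₁ hz₂
    have _ := countable_poly
    let D : Type := Σ d : {p : ℕ // p.Prime} × ℕ × ℕ, (Fin d.2.1 → ℕ) × (Fin d.2.2 → ℤ[X])
    let Q : D → Prop := fun d => Function.Injective d.2.1 ∧ d.1.2.2 ≤ d.1.2.1 ∧
      IndependentModConstants d.2.2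
    let B : D → Set ℕ := fun d =>
      haveI : Fact (d.1.1 : ℕ).Prime := ⟨d.1.1.2⟩
      if Q d then {t : ℕ | (∀ k, Pool.Agent.N924.CH.Cop (d.1.1 : ℕ) (fun i => z (d.2.1 i) t)
        (d.2.2 k)) ∧ ¬ Pool.Agent.N924.CH.Full (d.1.1 : ℕ) (fun i => z (d.2.1 i) t) d.2.2} else ∅
    have hB : ∀ S : ℕ → Finset ℕ, UD S z → ∀ d, Pool.Agent.N924.LP.Nul S (B d) := by
      intro S hz d
      haveI : Fact (d.1.1 : ℕ).Prime := ⟨d.1.1.2⟩
      by_cases hd : Q d
      · have h1 := Pool.Agent.N924.CH.main S (d.1.1 : ℕ) _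
          (Pool.Agent.N924.LP.ud_eqd hz d.2.1 hd.1) hd.2.1 d.2.2 hd.2.2
        refine h1.mono ?_
        intro t ht
        simp only [B, if_pos hd] at ht
        exact ht
      · intro ε hε
        refine ⟨0, fun N _ => ?_⟩
        have e1 : {t : ℕ | t ∈ S N ∧ t ∈ B d} = ∅ := by
          ext t
          simp [B, if_neg hd]
        rw [e1, Set.ncard_empty]
        push_cast
        positivity
    obtain ⟨E, h1, h2, h3⟩ := Pool.Agent.N924.LP.one_set B hS₁ hS₂ (hB S₁ hz₁) (hB S₂ hz₂)
    refine ⟨E, h1, h2, ?_⟩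
    intro p hp n r hr P hP σ hσ
    refine (h3 ⟨(⟨p, hp.out⟩, n, r), (σ, P)⟩).subset ?_
    rintro t ⟨ht, hcop, hbad⟩
    refine ⟨ht, ?_⟩
    have hQ : Q ⟨(⟨p, hp.out⟩, n, r), (σ, P)⟩ := ⟨hσ, hr, hP⟩
    simp only [B, if_pos hQ]
    exact ⟨hcop, fun h => hbad (expected_of p _ P h)⟩

end Pool.Agent.Results.MP_7de521_nt.RelativeNormOneTori
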